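import Mathlib
import Pool.Agent.H595K.ZFin
import Pool.Agent.H595K.WLarge

/-!
# Large `3`-convex subsets of arbitrary point sets

`IsLine`, `IsKConvexRegion`, `GenPos`, `KConvexSet` and `f` are defined in
`Pool.Agent.H595K.Defs`; `Vis124.IsSimplePolygon` in `Pool.Agent.H124R2.Vis.Defs`.
-/

namespace Pool.Agent.Results.MP_b11e79_co.AnySet

open Pool.Agent.H595K Filter

/-- Every set of `n ≥ 3` points in general position has a `3`-convex subset of size at least
`exp (c (log n) ^ (1/4) / (log (3 + log n)) ^ 3)`, so this is a lower bound for `f(k, j, n)` for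
all `k, j, n ≥ 3`; and `f(k, j, n) ≤ exp ((log n) ^ (1/2 + ε))` for all large `n` and all
`k ≥ k0(j, ε)`. In particular `log f` is between `(log n) ^ (1/4 - o(1))` and
`(log n) ^ (1/2 + o(1))` for `k` of order `√n` and larger, where `f(k, j, n)` is the least, over
all `n`-point sets, of the largest `j`-convex subset. -/
theorem result :
    (∃ c : ℝ, 0 < c ∧
      (∀ P : Finset (ℝ × ℝ), GenPos P → 3 ≤ P.card → ∃ Q ⊆ P, KConvexSet 3 Q ∧
        Real.exp (c * (Real.log P.card ^ ((1 : ℝ) / 4) /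
          Real.log (3 + Real.log P.card) ^ 3)) ≤ Q.card) ∧
      (∀ k j n : ℕ, 3 ≤ k → 3 ≤ j → 3 ≤ n →
        Real.exp (c * (Real.log n ^ ((1 : ℝ) / 4) / Real.log (3 + Real.log n) ^ 3)) ≤
          f k j n)) ∧
    ∀ (j : ℕ) (ε : ℝ), 0 < ε → ∃ k0 : ℕ, ∀ᶠ n : ℕ in atTop, ∀ k : ℕ, k0 ≤ k →
      (f k j n : ℝ) ≤ Real.exp (Real.log n ^ (1 / 2 + ε)) :=
  ⟨⟨1 / 10000, by norm_num, fun _ hgp h3 => Z.any_set hgp h3,
    fun _ _ _ hk hj hn => Z.any_f hk hj hn⟩, fun _ _ hε => large_up hε⟩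

end Pool.Agent.Results.MP_b11e79_co.AnySet
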