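import Mathlib
import Pool.Agent.H595K.WMain

/-!
# The order of `log f(k, j, n)` for all `k > j ≥ 3`

`IsLine`, `IsKConvexRegion`, `GenPos`, `KConvexSet` and `f` are defined in
`Pool.Agent.H595K.Defs`; `Vis124.IsSimplePolygon` in `Pool.Agent.H124R2.Vis.Defs`; the exponent
`expo` in `Pool.Agent.H595K.JDefs`; the number `nlog` of iterated logarithms in
`Pool.Agent.H595K.WDefs`.
-/

namespace Pool.Agent.Results.MP_b11e79_co.FullLog

open Pool.Agent.H595K Filter

/-- For all `k > j ≥ 3` the order of growth of `log f(k, j, n)` is exactly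
`(log n) ^ A · (log^{(r)} n) ^ (1 - A)`, where `A = expo k j`, `r = nlog k j` and `log^{(r)}` is
the `r`-fold iterated logarithm: with `a = ⌊j / 3⌋` and `H = ⌊k / 3⌋`, `A = 1` if `H = a`,
otherwise `A = (a + t) / (a + 2 t + 1)` with `t = ⌊(H - a - 1) / 2⌋`; `r = H` if `a = 1`, and for
`a ≥ 2` it is `2` if `H - a` is odd and `3` if `H - a` is even. -/
theorem result (k j : ℕ) (hj : 3 ≤ j) (hjk : j < k) :
    ∃ c C : ℝ, 0 < c ∧ 0 < C ∧ ∀ᶠ n : ℕ in atTop,
      Real.exp (c * (Real.log n ^ expo k j * (Real.log^[nlog k j] n) ^ (1 - expo k j))) ≤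
        f k j n ∧
      (f k j n : ℝ) ≤
        Real.exp (C * (Real.log n ^ expo k j * (Real.log^[nlog k j] n) ^ (1 - expo k j))) :=
  full_order hj hjk

end Pool.Agent.Results.MP_b11e79_co.FullLog
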