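import Mathlib
import Pool.Agent.H595K.QFin

/-!
# Upper bounds with exponents `1 / 2` and `2 / 5` inside one block

`IsLine`, `IsKConvexRegion`, `GenPos`, `KConvexSet` and `f` are defined in
`Pool.Agent.H595K.Defs`; `Vis124.IsSimplePolygon` in `Pool.Agent.H124R2.Vis.Defs`.
-/

namespace Pool.Agent.Results.MP_b11e79_co.HalfPower

open Pool.Agent.H595K

/-- For `a ≥ 1`: `f(k, 3a, n) ≤ n ^ (1 / 2 + o(1))` for all `k > 3a`,
`f(k, 3a + 1, n) ≤ n ^ (1 / 2 + o(1))` for all `k > 3a + 1`, and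
`f(k, 3a, n) ≤ n ^ (2 / 5 + o(1))` for all `k > 3a + 1`. The factor `n ^ o(1)` is
`exp (C (log n) ^ ((a - 1) / a) log log n)`, for `a = 1` it is a power of `log n`. -/
theorem result (a : ℕ) (ha : 1 ≤ a) : ∃ C : ℝ, ∀ n : ℕ, 16 ≤ n →
    (∀ k, 3 * a < k → (f k (3 * a) n : ℝ) ≤ C * (n : ℝ) ^ ((1 : ℝ) / 2) *
      Real.exp (C * Real.log n ^ (((a : ℝ) - 1) / a) * Real.log (Real.log n))) ∧
    (∀ k, 3 * a + 1 < k → (f k (3 * a + 1) n : ℝ) ≤ C * (n : ℝ) ^ ((1 : ℝ) / 2) *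
      Real.exp (C * Real.log n ^ (((a : ℝ) - 1) / a) * Real.log (Real.log n))) ∧
    (∀ k, 3 * a + 1 < k → (f k (3 * a) n : ℝ) ≤ C * (n : ℝ) ^ ((2 : ℝ) / 5) *
      Real.exp (C * Real.log n ^ (((a : ℝ) - 1) / a) * Real.log (Real.log n))) :=
  Grp.three_bounds a ha

end Pool.Agent.Results.MP_b11e79_co.HalfPower
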