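import Mathlib
import Pool.Agent.H595K.RLow

/-!
# The largest `j`-convex subsets of `k`-convex point sets: a lower bound uniform in `k`

`IsLine`, `IsKConvexRegion`, `GenPos`, `KConvexSet` and `f` are defined in
`Pool.Agent.H595K.Defs`; `Vis124.IsSimplePolygon` in `Pool.Agent.H124R2.Vis.Defs`.
-/

namespace Pool.Agent.Results.MP_b11e79_co.UniformSqrt

open Pool.Agent.H595K

/-- There is an absolute constant `c > 0` such that, with `V = log n / log k`,
`f(k, j, n) ≥ exp (c · max (√V / (log (3 + V)) ^ 3, √V / k))` for all `k, j, n ≥ 3`. -/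
theorem result : ∃ c : ℝ, 0 < c ∧ ∀ k j n : ℕ, 3 ≤ k → 3 ≤ j → 3 ≤ n →
    Real.exp (c * max (√(Real.log n / Real.log k) /
        Real.log (3 + Real.log n / Real.log k) ^ 3)
      (√(Real.log n / Real.log k) / k)) ≤ (f k j n : ℝ) :=
  ⟨1 / 10000, by norm_num, fun k j n hk hj hn => lower_bound3 k j n hk hj hn⟩

end Pool.Agent.Results.MP_b11e79_co.UniformSqrt
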